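import Pool.Agent.TH762.FP.Defs
import Pool.Agent.NPC.Dec

/-!
# Weighted satisfiability of formulas of bounded depth: definitions
-/

set_option autoImplicit false

namespace Pool.Agent.TH762.WT

open Pool.Agent.NPC

/-- Formulas of depth `t`: literals `(v, b)` (the variable number `v` has the value `b`) for `t = 0`,
and lists of formulas of depth `t` for `t + 1`. -/
def Fm : ℕ → Type
  | 0 => ℕ × Bool
  | t + 1 => List (Fm t)

/-- The codes of formulas are the codes of the nested lists. -/
instance fmEnc : (t : ℕ) → TEnc (Fm t)
  | 0 => inferInstanceAs (TEnc (ℕ × Bool))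
  | t + 1 => letI := fmEnc t; inferInstanceAs (TEnc (List (Fm t)))

/-- (The same fact with a decoder.) -/
instance fmDec : (t : ℕ) → TDec (Fm t)
  | 0 => inferInstanceAs (TDec (ℕ × Bool))
  | t + 1 => letI := fmDec t; inferInstanceAs (TDec (List (Fm t)))

/-- The value of a formula: with `true` the formula of depth `t + 1` is the conjunction of its
members, each of them with `false`; with `false` it is the disjunction of its members, each of them
with `true`. So the formulas of depth `t` with `true` are the formulas of the class `Γ_{t,1}`. -/
def val (α : ℕ → Bool) : (t : ℕ) → Bool → Fm t → Bool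
  | 0, _, l => decide (α l.1 = l.2)
  | t + 1, true, F => List.all (F : List (Fm t)) (val α t false)
  | t + 1, false, F => List.any (F : List (Fm t)) (val α t true)

/-- The variables that occur in a formula. -/
def vars : (t : ℕ) → Fm t → List ℕ
  | 0, l => [l.1]
  | t + 1, F => List.flatMap (vars t) (F : List (Fm t))

/-- `p-WSAT(Γ_{t,1})`: the pairs `(x, k)` such that `x` is the code of a formula of the class
`Γ_{t,1}` which is satisfied by an assignment of its variables that sets exactly `k` of them to
true. -/
def PWSat (t : ℕ) : Set (List Bool × ℕ) :=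
  {q | ∃ φ : Fm t, q.1 = bits φ ∧ ∃ S : Finset ℕ, (∀ v ∈ S, v ∈ vars t φ) ∧ S.card = q.2 ∧
    val (fun v => decide (v ∈ S)) t true φ = true}

end Pool.Agent.TH762.WT
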