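import Pool.Agent.TH762.WT.Gen
import Pool.Agent.TH762.WT.Defs

/-!
# The classes `Γ_{t,1}`
-/

set_option autoImplicit false

namespace Pool.Agent.TH762.WT

open Pool.Agent.NPC Pool.Agent.H579R2.Spt Pool.Agent.H251R5.PQ Pool.Agent.TH684.EX
open Pool.Agent.TH762.FP
open Pool.Agent.TH762.RX (nub mem_nub nodup_nub nub_poly)

/-- a variable as a formula of depth `t` -/
def lt : (t : ℕ) → ℕ → Fm t
  | 0, v => (v, true)
  | t + 1, v => [lt t v]

theorem val_lt (α : ℕ → Bool) : ∀ (t : ℕ) (b : Bool) (v : ℕ), val α t b (lt t v) = α v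
  | 0, b, v => by
    show decide (α v = true) = α v
    cases α v <;> rfl
  | t + 1, true, v => by
    show List.all [lt t v] (val α t false) = α v
    simp [val_lt α t false v]
  | t + 1, false, v => by
    show List.any [lt t v] (val α t true) = α v
    simp [val_lt α t true v]

theorem vars_lt : ∀ (t : ℕ) (v : ℕ), vars t (lt t v) = [v]
  | 0, _ => rfl
  | t + 1, v => by
    show List.flatMap (vars t) [lt t v] = [v]
    simp [vars_lt t v]

theorem lt_poly : ∀ t : ℕ, Poly (lt t)
  | 0 => NPC.Poly.pair NPC.Poly.id (NPC.Poly.const true)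
  | t + 1 => (NPC.Poly.cons (lt_poly t) (NPC.Poly.const ([] : List (Fm t))) :
      Poly (fun v => (lt t v :: [] : List (Fm t))))

theorem vars_poly : ∀ t : ℕ, Poly (vars t)
  | 0 => NPC.Poly.cons (NPC.Poly.fst NPC.Poly.id) (NPC.Poly.const ([] : List ℕ))
  | t + 1 => (NPC.Poly.flatMap (l := fun F : List (Fm t) => F) (F := fun _ f => vars t f)
      NPC.Poly.id ((vars_poly t).comp (NPC.Poly.snd NPC.Poly.id)) :
      Poly (fun F : List (Fm t) => F.flatMap (vars t)))

theorem val_poly : ∀ (t : ℕ) (b : Bool) {α : Type} [TEnc α] {l : α → List ℕ} {φ : α → Fm t},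
    Poly l → Poly φ → Poly (fun a => val (fun v => decide (v ∈ l a)) t b (φ a))
  | 0, b, α, _, l, φ, hl, hφ => by
    have h1 : Poly (fun a => (φ a : ℕ × Bool)) := hφ
    exact NPC.Poly.decide_eq (NPC.Poly.decide_mem (NPC.Poly.fst h1) hl) (NPC.Poly.snd h1)
  | t + 1, true, α, _, l, φ, hl, hφ => by
    have h1 : Poly (fun a => (φ a : List (Fm t))) := hφ
    exact NPC.Poly.all (l := fun a => (φ a : List (Fm t)))
      (p := fun a f => val (fun v => decide (v ∈ l a)) t false f) h1
      (val_poly t false (hl.comp (NPC.Poly.fst NPC.Poly.id)) (NPC.Poly.snd NPC.Poly.id))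
  | t + 1, false, α, _, l, φ, hl, hφ => by
    have h1 : Poly (fun a => (φ a : List (Fm t))) := hφ
    exact NPC.Poly.any (l := fun a => (φ a : List (Fm t)))
      (p := fun a f => val (fun v => decide (v ∈ l a)) t true f) h1
      (val_poly t true (hl.comp (NPC.Poly.fst NPC.Poly.id)) (NPC.Poly.snd NPC.Poly.id))

/-- a clause -/
def cl (t : ℕ) (c : List ℕ) : Fm (t + 1) := List.map (lt t) c

/-- concatenation -/
def app {t : ℕ} (A B : List (Fm t)) : List (Fm t) := A ++ B

/-- the conjunction with clauses -/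
def cjf (t : ℕ) (q : Fm (t + 2) × List (List ℕ)) : Fm (t + 2) :=
  app (t := t + 1) q.1 (q.2.map (cl t))

theorem cjf_poly (t : ℕ) : Poly (cjf t) := by
  have h1 : Poly (fun q : Fm (t + 2) × List (List ℕ) => (q.1 : List (Fm (t + 1)))) :=
    NPC.Poly.fst NPC.Poly.id
  have h2 : Poly (fun q : Fm (t + 2) × List (List ℕ) => q.2.map (cl t)) := by
    refine NPC.Poly.map (l := fun q : Fm (t + 2) × List (List ℕ) => q.2)
      (F := fun _ c => cl t c) (NPC.Poly.snd NPC.Poly.id) ?_
    have h3 : Poly (fun q : (Fm (t + 2) × List (List ℕ)) × List ℕ =>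
        (q.2.map (lt t) : List (Fm t))) :=
      DU.mapf_poly (NPC.Poly.snd NPC.Poly.id) (lt_poly t)
    exact h3
  exact NPC.Poly.append h1 h2

theorem val_cl (α : ℕ → Bool) (t : ℕ) (c : List ℕ) : val α (t + 1) false (cl t c) = true ↔
    ∃ v ∈ c, α v = true := by
  show List.any (List.map (lt t) c) (val α t true) = true ↔ _
  rw [List.any_map, List.any_eq_true]
  simp only [Function.comp_apply, val_lt]

theorem val_cjf (α : ℕ → Bool) (t : ℕ) (φ : Fm (t + 2)) (C : List (List ℕ)) :
    val α (t + 2) true (cjf t (φ, C)) = true ↔ val α (t + 2) true φ = true ∧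
      ∀ c ∈ C, ∃ v ∈ c, α v = true := by
  show List.all (app (t := t + 1) φ (C.map (cl t))) (val α (t + 1) false) = true ↔
    List.all (φ : List (Fm (t + 1))) (val α (t + 1) false) = true ∧ _
  unfold app
  rw [List.all_append, Bool.and_eq_true]
  refine and_congr_right fun _ => ?_
  rw [List.all_eq_true]
  constructor
  · intro h c hc
    exact (val_cl α t c).1 (h _ (List.mem_map.2 ⟨c, hc, rfl⟩))
  · intro h f hf
    obtain ⟨c, hc, rfl⟩ := List.mem_map.1 hf
    exact (val_cl α t c).2 (h c hc)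

theorem vars_cl (t : ℕ) (c : List ℕ) (v : ℕ) : v ∈ vars (t + 1) (cl t c) ↔ v ∈ c := by
  show v ∈ List.flatMap (vars t) (List.map (lt t) c) ↔ _
  rw [List.mem_flatMap]
  constructor
  · rintro ⟨f, hf, hv⟩
    obtain ⟨w, hw, rfl⟩ := List.mem_map.1 hf
    rw [vars_lt, List.mem_singleton] at hv
    rwa [hv]
  · intro hv
    exact ⟨_, List.mem_map.2 ⟨v, hv, rfl⟩, by rw [vars_lt]; exact List.mem_singleton_self v⟩

theorem vars_cjf (t : ℕ) (φ : Fm (t + 2)) (C : List (List ℕ)) (v : ℕ) :
    v ∈ vars (t + 2) (cjf t (φ, C)) ↔ v ∈ vars (t + 2) φ ∨ ∃ c ∈ C, v ∈ c := by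
  show v ∈ List.flatMap (vars (t + 1)) (app (t := t + 1) φ (C.map (cl t))) ↔
      v ∈ List.flatMap (vars (t + 1)) (φ : List (Fm (t + 1))) ∨ _
  unfold app
  rw [List.flatMap_append, List.mem_append]
  refine or_congr_right ?_
  rw [List.mem_flatMap]
  constructor
  · rintro ⟨f, hf, hv⟩
    obtain ⟨c, hc, rfl⟩ := List.mem_map.1 hf
    exact ⟨c, hc, (vars_cl t c v).1 hv⟩
  · rintro ⟨c, hc, hv⟩
    exact ⟨_, List.mem_map.2 ⟨c, hc, rfl⟩, (vars_cl t c v).2 hv⟩

/-- the class `Γ_{t,1}`, `t ≥ 2` -/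
def gcls (t : ℕ) : Cls (Fm (t + 2)) where
  vs φ := nub (vars (t + 2) φ)
  sem φ S := val (fun v => decide (v ∈ S)) (t + 2) true φ = true
  ev q := val (fun v => decide (v ∈ q.2)) (t + 2) true q.1
  cj := cjf t
  nd φ := nodup_nub _
  vs_poly := (nub_poly (V := ℕ)).comp (vars_poly (t + 2))
  ev_poly := val_poly (t + 2) true (NPC.Poly.snd NPC.Poly.id) (NPC.Poly.fst NPC.Poly.id)
  cj_poly := cjf_poly t
  ev_iff φ l := by
    have h : (fun v => decide (v ∈ l)) = fun v => decide (v ∈ l.toFinset) := by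
      funext v
      exact decide_eq_decide.2 List.mem_toFinset.symm
    simp only
    rw [h]
  sem_cj φ C S := by
    rw [val_cjf]
    simp only [decide_eq_true_eq]
  vs_cj φ C hC v := by
    rw [mem_nub, mem_nub, vars_cjf]
    constructor
    · rintro (h | ⟨c, hc, hv⟩)
      · exact h
      · exact (mem_nub _ _).1 (hC c hc v hv)
    · exact Or.inl

theorem ws_gcls (t : ℕ) : WS (gcls t) = PWSat (t + 2) := by
  ext q
  refine exists_congr fun φ => and_congr_right fun _ => ?_
  refine exists_congr fun S => and_congr_left' ?_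
  exact forall₂_congr fun v _ => mem_nub _ _

end Pool.Agent.TH762.WT
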