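import Pool.Agent.TH762.FP.Tfae
import Pool.Agent.TH762.DU.Lft

/-!
# The exclusion law for weighted satisfiability problems
-/

set_option autoImplicit false

namespace Pool.Agent.TH762.WT

open Pool.Agent.NPC Pool.Agent.H579R2.Spt Pool.Agent.H251R5.PQ Pool.Agent.TH684.EX
open Pool.Agent.TH762.PT (Tree num num_le_iff)
open Pool.Agent.TH762.FP
open Pool.Agent.TH762.DU (sel mem_sel sel_poly mapf_poly)

/-- a class of formulas closed under the conjunction with monotone clauses -/
structure Cls (Φ : Type) [TEnc Φ] where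
  /-- the variables -/
  vs : Φ → List ℕ
  /-- the satisfying sets -/
  sem : Φ → Finset ℕ → Prop
  /-- the evaluation -/
  ev : Φ × List ℕ → Bool
  /-- the conjunction -/
  cj : Φ × List (List ℕ) → Φ
  nd : ∀ φ, (vs φ).Nodup
  vs_poly : Poly vs
  ev_poly : Poly ev
  cj_poly : Poly cj
  ev_iff : ∀ φ l, ev (φ, l) = true ↔ sem φ l.toFinset
  sem_cj : ∀ φ C S, sem (cj (φ, C)) S ↔ sem φ S ∧ ∀ c ∈ C, ∃ v ∈ c, v ∈ S
  vs_cj : ∀ φ C, (∀ c ∈ C, ∀ v ∈ c, v ∈ vs φ) → ∀ v, v ∈ vs (cj (φ, C)) ↔ v ∈ vs φ

variable {Φ : Type} [TEnc Φ]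

/-- there is a satisfying set of `k` variables -/
def Wk (K : Cls Φ) (φ : Φ) (k : ℕ) : Prop :=
  ∃ S : Finset ℕ, (∀ v ∈ S, v ∈ K.vs φ) ∧ S.card = k ∧ K.sem φ S

/-- the weighted satisfiability problem -/
def WS (K : Cls Φ) : Set (List Bool × ℕ) := {q | ∃ φ : Φ, q.1 = bits φ ∧ Wk K φ q.2}

theorem mem_ws {K : Cls Φ} {φ : Φ} {k : ℕ} : ((bits φ, k) : List Bool × ℕ) ∈ WS K ↔ Wk K φ k := by
  constructor
  · rintro ⟨ψ, h1, h2⟩
    rw [bits_injective h1]
    exact h2
  · exact fun h => ⟨φ, rfl, h⟩

/-- the clauses that say that the first values are not lexicographically smaller than `u` -/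
def lexc (vs u : List ℕ) : List (List ℕ) :=
  ((List.range u.length).filter fun i => decide (u.getD i 0 = 1)).map fun i =>
    vs.getD i 0 :: ((List.range u.length).filter fun j => decide (j < i) &&
      !decide (u.getD j 0 = 1)).map fun j => vs.getD j 0

/-- the prefixes of satisfying assignments -/
def gdw (K : Cls Φ) (φ : Φ) (k : ℕ) (u : List ℕ) : Prop :=
  u.length ≤ (K.vs φ).length ∧ ∃ S : Finset ℕ, (∀ v ∈ S, v ∈ K.vs φ) ∧ S.card = k ∧ K.sem φ S ∧
    ∀ i < u.length, ((K.vs φ).getD i 0 ∈ S ↔ u.getD i 0 = 1)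

theorem gdw_nil {K : Cls Φ} {φ : Φ} {k : ℕ} : gdw K φ k [] ↔ Wk K φ k := by
  unfold gdw Wk
  simp

open Classical in
theorem tree_gdw (K : Cls Φ) (φ : Φ) (k : ℕ) : Tree 1 (K.vs φ).length (gdw K φ k) where
  pre := by
    rintro u c ⟨h1, S, h2, h3, h4, h5⟩
    rw [List.length_append, List.length_singleton] at h1
    refine ⟨by omega, S, h2, h3, h4, fun i hi => ?_⟩
    rw [h5 i (by rw [List.length_append]; omega), List.getD_append _ _ _ _ hi]
  ext := by
    rintro u hu - ⟨h1, S, h2, h3, h4, h5⟩
    refine ⟨if (K.vs φ).getD u.length 0 ∈ S then 1 else 0, by split_ifs <;> omega,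
      by rw [List.length_append, List.length_singleton]; omega, S, h2, h3, h4, fun i hi => ?_⟩
    rw [List.length_append, List.length_singleton] at hi
    rcases Nat.lt_or_ge i u.length with h | h
    · rw [h5 i h, List.getD_append _ _ _ _ h]
    · have h6 : i = u.length := by omega
      subst h6
      rw [List.getD_append_right _ _ _ _ le_rfl, Nat.sub_self]
      change _ ↔ (if (K.vs φ).getD u.length 0 ∈ S then 1 else 0) = 1
      split_ifs with h7
      · exact iff_of_true h7 rfl
      · exact iff_of_false h7 fun h => h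

theorem take_eq {σ u : List ℕ} (h : σ.length = u.length) (l : ℕ) :
    σ.take l = u.take l ↔ ∀ j < l, σ.getD j 0 = u.getD j 0 := by
  constructor
  · intro h1 j hj
    have h2 := congrArg (fun t => t[j]?) h1
    simp only [List.getElem?_take_of_lt hj] at h2
    rw [List.getD_eq_getElem?_getD, List.getD_eq_getElem?_getD, h2]
  · intro h1
    refine List.ext_getElem? fun j => ?_
    rcases Nat.lt_or_ge j l with hj | hj
    · rw [List.getElem?_take_of_lt hj, List.getElem?_take_of_lt hj]
      have h2 := h1 j hj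
      rcases Nat.lt_or_ge j u.length with hju | hju
      · rw [List.getD_eq_getElem _ _ (by omega), List.getD_eq_getElem _ _ hju] at h2
        rw [List.getElem?_eq_getElem (by omega), List.getElem?_eq_getElem hju, h2]
      · rw [List.getElem?_eq_none (by omega), List.getElem?_eq_none hju]
    · rw [List.getElem?_eq_none (by rw [List.length_take]; omega),
        List.getElem?_eq_none (by rw [List.length_take]; omega)]

theorem mem_lexc {vs u : List ℕ} {S : Finset ℕ} : (∀ c ∈ lexc vs u, ∃ v ∈ c, v ∈ S) ↔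
    ∀ i < u.length, u.getD i 0 = 1 → vs.getD i 0 ∈ S ∨
      ∃ j < i, u.getD j 0 ≠ 1 ∧ vs.getD j 0 ∈ S := by
  unfold lexc
  constructor
  · intro h i hi hui
    obtain ⟨v, hv, hvS⟩ := h _ (List.mem_map.2 ⟨i, List.mem_filter.2 ⟨List.mem_range.2 hi,
      decide_eq_true hui⟩, rfl⟩)
    rcases List.mem_cons.1 hv with rfl | hv
    · exact Or.inl hvS
    · obtain ⟨j, hj, rfl⟩ := List.mem_map.1 hv
      obtain ⟨h1, h2⟩ := List.mem_filter.1 hj
      rw [Bool.and_eq_true, decide_eq_true_eq] at h2
      exact Or.inr ⟨j, h2.1, by simpa using h2.2, hvS⟩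
  · intro h c hc
    obtain ⟨i, hi, rfl⟩ := List.mem_map.1 hc
    obtain ⟨h1, h2⟩ := List.mem_filter.1 hi
    rcases h i (List.mem_range.1 h1) (of_decide_eq_true h2) with h3 | ⟨j, hj, h4, h5⟩
    · exact ⟨_, List.mem_cons_self, h3⟩
    · have h1' := List.mem_range.1 h1
      refine ⟨_, List.mem_cons_of_mem _ (List.mem_map.2 ⟨j, List.mem_filter.2
        ⟨List.mem_range.2 (by omega), ?_⟩, rfl⟩), h5⟩
      rw [Bool.and_eq_true, decide_eq_true_eq]
      exact ⟨hj, by simpa using h4⟩

theorem lexc_vs {vs u : List ℕ} (hu : u.length ≤ vs.length) : ∀ c ∈ lexc vs u, ∀ v ∈ c, v ∈ vs := by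
  intro c hc v hv
  obtain ⟨i, hi, rfl⟩ := List.mem_map.1 hc
  have hi' := List.mem_range.1 (List.mem_filter.1 hi).1
  rcases List.mem_cons.1 hv with rfl | hv
  · rw [List.getD_eq_getElem _ _ (by omega)]
    exact List.getElem_mem _
  · obtain ⟨j, hj, rfl⟩ := List.mem_map.1 hv
    have hj' := List.mem_range.1 (List.mem_filter.1 hj).1
    rw [List.getD_eq_getElem _ _ (by omega)]
    exact List.getElem_mem _

open Classical in
/-- **The left set.** -/
theorem left_iff {K : Cls Φ} {φ : Φ} {k : ℕ} {u : List ℕ} (hu : u.length ≤ (K.vs φ).length)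
    (hd : ∀ d ∈ u, d ≤ 1) : Wk K (K.cj (φ, lexc (K.vs φ) u)) k ↔
      ∃ σ : List ℕ, σ.length = u.length ∧ (∀ d ∈ σ, d ≤ 1) ∧ gdw K φ k σ ∧
        num 1 u ≤ num 1 σ := by
  have hud : ∀ i < u.length, u.getD i 0 ≤ 1 := by
    intro i hi
    rw [List.getD_eq_getElem _ _ hi]
    exact hd _ (List.getElem_mem _)
  have hvs := K.vs_cj φ _ (lexc_vs hu)
  constructor
  · rintro ⟨S, h1, h2, h3⟩
    rw [K.sem_cj, mem_lexc] at h3
    obtain ⟨h3, h4⟩ := h3
    set σ : List ℕ := (List.range u.length).map fun i =>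
      if (K.vs φ).getD i 0 ∈ S then 1 else 0 with hσ
    have hl : σ.length = u.length := by rw [hσ, List.length_map, List.length_range]
    have hg : ∀ i < u.length, σ.getD i 0 = if (K.vs φ).getD i 0 ∈ S then 1 else 0 := by
      intro i hi
      rw [List.getD_eq_getElem _ _ (by omega)]
      simp [hσ]
    have hσd : ∀ d ∈ σ, d ≤ 1 := by
      intro d hdm
      obtain ⟨i, _, rfl⟩ := List.mem_map.1 hdm
      split_ifs <;> omega
    refine ⟨σ, hl, hσd, ⟨by omega, S, fun v hv => (hvs v).1 (h1 v hv), h2, h3, fun i hi => ?_⟩, ?_⟩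
    · rw [hg i (by omega)]
      split_ifs with h7
      · exact iff_of_true h7 rfl
      · exact iff_of_false h7 fun h => h
    · rw [num_le_iff u σ hl.symm hd hσd]
      by_cases he : ∀ i < u.length, σ.getD i 0 = u.getD i 0
      · left
        have h5 := (take_eq hl u.length).2 he
        rwa [List.take_length, ← hl, List.take_length] at h5
      · right
        push Not at he
        have hex : ∃ i, i < u.length ∧ σ.getD i 0 ≠ u.getD i 0 := he
        obtain ⟨h5, h6⟩ := Nat.find_spec hex
        set l := Nat.find hex with hldef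
        have hmin : ∀ j < l, σ.getD j 0 = u.getD j 0 := by
          intro j hj
          have h7 := Nat.find_min hex hj
          by_contra h8
          exact h7 ⟨by omega, h8⟩
        refine ⟨l, h5, (take_eq hl l).2 hmin, ?_⟩
        have h7 := hg l h5
        have h8 := hud l h5
        by_cases hul : u.getD l 0 = 1
        · exfalso
          have h9 : (K.vs φ).getD l 0 ∉ S := by
            intro h10
            rw [if_pos h10] at h7
            exact h6 (by rw [h7, hul])
          rcases h4 l h5 hul with h10 | ⟨j, hj, h10, h11⟩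
          · exact h9 h10
          · have h12 := hg j (by omega)
            rw [if_pos h11] at h12
            exact h10 (by rw [← hmin j hj, h12])
        · have h9 : (K.vs φ).getD l 0 ∈ S := by
            by_contra h10
            rw [if_neg h10] at h7
            exact h6 (by omega)
          rw [if_pos h9] at h7
          omega
  · rintro ⟨σ, hl, hσd, ⟨_, S, h1, h2, h3, h4⟩, hle⟩
    rw [num_le_iff u σ hl.symm hd hσd] at hle
    refine ⟨S, fun v hv => (hvs v).2 (h1 v hv), h2, ?_⟩
    rw [K.sem_cj, mem_lexc]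
    refine ⟨h3, fun i hi hui => ?_⟩
    rcases hle with h | ⟨l, hl1, h5, h6⟩
    · left
      rw [h4 i (by omega), h, hui]
    · rw [take_eq hl] at h5
      have h7 : σ.getD l 0 ≤ 1 := by
        rw [List.getD_eq_getElem _ _ (by omega)]
        exact hσd _ (List.getElem_mem _)
      rcases lt_trichotomy l i with h8 | h8 | h8
      · exact Or.inr ⟨l, h8, by omega, (h4 l (by omega)).2 (by omega)⟩
      · subst h8
        omega
      · left
        rw [h4 i (by omega), h5 i h8, hui]

theorem lexc_poly {α : Type} [TEnc α] {vs u : α → List ℕ} (hv : Poly vs) (hu : Poly u) :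
    Poly (fun a => lexc (vs a) (u a)) := by
  have e1 : Poly (fun q : α × ℕ => q.1) := NPC.Poly.fst NPC.Poly.id
  have e2 : Poly (fun q : α × ℕ => q.2) := NPC.Poly.snd NPC.Poly.id
  have hone : Poly (fun q : α × ℕ => decide ((u q.1).getD q.2 0 = 1)) :=
    NPC.Poly.decide_eq (NPC.Poly.getD (hu.comp e1) e2 (NPC.Poly.const 0)) (NPC.Poly.const 1)
  refine NPC.Poly.map (l := fun a => (List.range (u a).length).filter fun i =>
      decide ((u a).getD i 0 = 1)) (F := fun a i => (vs a).getD i 0 ::
      ((List.range (u a).length).filter fun j => decide (j < i) &&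
        !decide ((u a).getD j 0 = 1)).map fun j => (vs a).getD j 0)
    (NPC.Poly.filter (l := fun a => List.range (u a).length)
      (p := fun a i => decide ((u a).getD i 0 = 1)) (UPoly.length hu).range hone) ?_
  refine NPC.Poly.cons (NPC.Poly.getD (hv.comp e1) e2 (NPC.Poly.const 0)) ?_
  have f1 : Poly (fun q : (α × ℕ) × ℕ => q.1) := NPC.Poly.fst NPC.Poly.id
  have f2 : Poly (fun q : (α × ℕ) × ℕ => q.2) := NPC.Poly.snd NPC.Poly.id
  refine NPC.Poly.map (l := fun q : α × ℕ => (List.range (u q.1).length).filter fun j =>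
      decide (j < q.2) && !decide ((u q.1).getD j 0 = 1)) (F := fun q j => (vs q.1).getD j 0)
    (NPC.Poly.filter (l := fun q : α × ℕ => List.range (u q.1).length) (p := fun q j =>
      decide (j < q.2) && !decide ((u q.1).getD j 0 = 1)) (UPoly.length (hu.comp e1)).range ?_)
    (NPC.Poly.getD (hv.comp (e1.comp f1)) f2 (NPC.Poly.const 0))
  exact NPC.Poly.and (NPC.Poly.decide_lt f2 (e2.comp f1)) (NPC.Poly.not
    (hone.comp (NPC.Poly.pair (e1.comp f1) f2)))

/-! ### The law -/

/-- formulas with the data that depend on the parameter -/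
abbrev Iw (Φ : Type) : Type := Φ × ((List Bool × List Bool) × (List Bool × List Bool))

/-- the test for the candidates -/
def dcw (K : Cls Φ) (G : Iw Φ → List (List ℕ)) (a : Iw Φ) : Bool :=
  (G a).any fun w => decide ((sel true (K.vs a.1) w).length = a.2.1.1.length) &&
    K.ev (a.1, sel true (K.vs a.1) w)

theorem dcw_poly {K : Cls Φ} {G : Iw Φ → List (List ℕ)} (hG : Poly G) : Poly (dcw K G) := by
  refine NPC.Poly.any (l := G) (p := fun a w =>
    decide ((sel true (K.vs a.1) w).length = a.2.1.1.length) &&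
      K.ev (a.1, sel true (K.vs a.1) w)) hG ?_
  have e1 : Poly (fun q : Iw Φ × List ℕ => q.1) := NPC.Poly.fst NPC.Poly.id
  have e2 : Poly (fun q : Iw Φ × List ℕ => q.2) := NPC.Poly.snd NPC.Poly.id
  have e3 : Poly (fun q : Iw Φ × List ℕ => sel true (K.vs q.1.1) q.2) :=
    sel_poly true (K.vs_poly.comp (NPC.Poly.fst e1)) e2
  exact NPC.Poly.and (NPC.Poly.decide_eq (NPC.Poly.length e3) (NPC.Poly.length
    (NPC.Poly.fst (NPC.Poly.fst (NPC.Poly.snd e1)))))
    (K.ev_poly.comp (NPC.Poly.pair (NPC.Poly.fst e1) e3))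

theorem mfz : ∀ l u : List ℕ, (l.zip u).map (fun p => p.1) = l.take u.length
  | [], _ => by simp
  | _ :: _, [] => by simp
  | a :: l, b :: u => by
    have := mfz l u
    simp only [List.zip_cons_cons, List.map_cons, List.length_cons, List.take_succ_cons, this]

theorem sel_nodup {l u : List ℕ} (hl : l.Nodup) : (sel true l u).Nodup := by
  unfold DU.sel
  have h1 : ((l.zip u).map fun p => p.1).Nodup := by
    rw [mfz]
    exact hl.sublist (List.take_sublist _ _)
  exact h1.sublist ((List.filter_sublist (l := l.zip u)).map fun p => p.1)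

theorem dcw_sound {K : Cls Φ} {G : Iw Φ → List (List ℕ)} {a : Iw Φ} (h : dcw K G a = true) :
    Wk K a.1 a.2.1.1.length := by
  classical
  unfold dcw at h
  rw [List.any_eq_true] at h
  obtain ⟨w, _, hw⟩ := h
  rw [Bool.and_eq_true, decide_eq_true_eq, K.ev_iff] at hw
  refine ⟨_, fun v hv => ?_, ?_, hw.2⟩
  · rw [List.mem_toFinset, mem_sel] at hv
    obtain ⟨i, hi, _, h1, _⟩ := hv
    rw [← h1, List.getD_eq_getElem _ _ hi]
    exact List.getElem_mem _
  · rw [List.toFinset_card_of_nodup (sel_nodup (K.nd _))]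
    exact hw.1

theorem test_of_gdw {K : Cls Φ} {φ : Φ} {k : ℕ} {w : List ℕ} (hw : w.length = (K.vs φ).length)
    (h : gdw K φ k w) : (sel true (K.vs φ) w).length = k ∧
      K.ev (φ, sel true (K.vs φ) w) = true := by
  classical
  obtain ⟨_, S, h1, h2, h3, h4⟩ := h
  have h5 : (sel true (K.vs φ) w).toFinset = S := by
    ext v
    rw [List.mem_toFinset, mem_sel]
    constructor
    · rintro ⟨i, hi, hi', g1, g2⟩
      rw [← g1, h4 i hi']
      exact of_decide_eq_true g2
    · intro hv
      obtain ⟨i, hi, h5⟩ := List.getElem_of_mem (h1 v hv)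
      have h6 : (K.vs φ).getD i 0 = v := by rw [List.getD_eq_getElem _ _ hi, h5]
      exact ⟨i, hi, by omega, h6, decide_eq_true ((h4 i (by omega)).1 (by rw [h6]; exact hv))⟩
  constructor
  · rw [← h2, ← h5, List.toFinset_card_of_nodup (sel_nodup (K.nd _))]
  · rw [K.ev_iff, h5]
    exact h3

variable [TDec Φ]

/-- the data of an instance -/
def idw (z : List Bool) (φ : Φ) : Iw Φ :=
  (φ, (unpair (unpair (unpair z).2).1, unpair (unpair (unpair z).2).2))

/-- the algorithm -/
def algw (K : Cls Φ) (G : Iw Φ → List (List ℕ)) (z : List Bool) : Bool :=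
  (unbits Φ (unpair z).1).elim false fun φ => dcw K G (idw z φ)

theorem algw_poly {K : Cls Φ} {G : Iw Φ → List (List ℕ)} (hG : Poly G) : Poly (algw K G) := by
  refine NPC.Poly.optElim (o := fun z => unbits Φ (unpair z).1)
    (g := fun _ => false) (h := fun z φ => dcw K G (idw z φ))
    (poly_unbits.comp (NPC.Poly.fst poly_unpair)) (NPC.Poly.const _) ?_
  refine (dcw_poly hG).comp ?_
  have e1 : Poly (fun q : List Bool × Φ => (unpair q.1).2) :=
    NPC.Poly.snd (poly_unpair.comp (NPC.Poly.fst NPC.Poly.id))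
  have e2 : Poly (fun q : List Bool × Φ => unpair (unpair q.1).2) := poly_unpair.comp e1
  exact NPC.Poly.pair (NPC.Poly.snd NPC.Poly.id) (NPC.Poly.pair
    (poly_unpair.comp (NPC.Poly.fst e2)) (poly_unpair.comp (NPC.Poly.snd e2)))

/-- the question about a path -/
def qw (K : Cls Φ) (R : List Bool → List Bool) (r : List Bool → ℕ) (p : Iw Φ × List ℕ) :
    List Bool × ℕ :=
  (R (pairBits (bits (K.cj (p.1.1, lexc (K.vs p.1.1) p.2))) p.1.2.1.2),
    r (pairBits (bits (K.cj (p.1.1, lexc (K.vs p.1.1) p.2))) p.1.2.1.2))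

omit [TDec Φ] in
theorem qw_poly {K : Cls Φ} {R : List Bool → List Bool} {r : List Bool → ℕ} (hR : Poly R)
    (hr : Poly r) : Poly (qw K R r) := by
  have e1 : Poly (fun p : Iw Φ × List ℕ => p.1) := NPC.Poly.fst NPC.Poly.id
  have e4 : Poly (fun p : Iw Φ × List ℕ => p.1.1) := NPC.Poly.fst e1
  have e2 : Poly (fun p : Iw Φ × List ℕ =>
      bits (K.cj (p.1.1, lexc (K.vs p.1.1) p.2))) :=
    bits_poly.comp (K.cj_poly.comp (NPC.Poly.pair e4
      (lexc_poly (K.vs_poly.comp e4) (NPC.Poly.snd NPC.Poly.id))))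
  have e3 : Poly (fun p : Iw Φ × List ℕ =>
      pairBits (bits (K.cj (p.1.1, lexc (K.vs p.1.1) p.2))) p.1.2.1.2) :=
    H622R2.poly_pairBits e2 (NPC.Poly.snd (NPC.Poly.fst (NPC.Poly.snd e1)))
  exact NPC.Poly.pair (hR.comp e3) (hr.comp e3)

/-- **From exclusion to weighted satisfiability.** -/
theorem ws_fpt {K : Cls Φ} {A : Set (List Bool × ℕ)} (hA : FptReduces (WS K) A)
    (h : FptFeasible (ExcludeSorted A)) : InFPT (WS K) := by
  obtain ⟨θR, g, R, r, hθR, hg', hR, hr, hRA⟩ := hA
  obtain ⟨θX, X, b, hθX, hX, hex⟩ := h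
  have hRp : Poly R := PIso.poly_iff.2 hR
  have hrp : Poly r := poly_of_polyTime hr
  have e1 : Poly (fun a : Iw Φ => a.2.1) := NPC.Poly.fst (NPC.Poly.snd NPC.Poly.id)
  have e2 : Poly (fun a : Iw Φ => a.2.2) := NPC.Poly.snd (NPC.Poly.snd NPC.Poly.id)
  obtain ⟨G, hG, hG2⟩ := engineT hX hex (α := Iw Φ) (D := fun _ => 1)
    (n := fun a => (K.vs a.1).length) (κ := fun a => a.2.2.1.length) (th := fun a => a.2.2.2)
    (UPoly.const 1) (UPoly.length (K.vs_poly.comp (NPC.Poly.fst NPC.Poly.id)))
    (NPC.Poly.length (NPC.Poly.fst e2)) (NPC.Poly.snd e2) (qw_poly (K := K) hRp hrp)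
  refine ⟨fun k => pairBits (pairBits (List.replicate k true) (θR k))
    (pairBits (List.replicate (g k) true) (θX (g k))), fun z => [algw K G z],
    computable_pair (computable_pair (computable_replicate Computable.id) hθR)
      (computable_pair (computable_replicate hg') (hθX.comp hg')),
    polyTime_of_poly (algw_poly hG), fun x k => ?_⟩
  set t : List Bool := pairBits (pairBits (List.replicate k true) (θR k))
    (pairBits (List.replicate (g k) true) (θX (g k))) with ht
  have hidt : ∀ φ : Φ, idw (pairBits x t) φ =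
      (φ, ((List.replicate k true, θR k), (List.replicate (g k) true, θX (g k)))) := by
    intro φ
    unfold idw
    rw [unpair_pairBits, ht, unpair_pairBits]
    simp only [unpair_pairBits]
  rw [List.cons.injEq]
  simp only [and_true]
  unfold algw
  rw [unpair_pairBits]
  simp only
  constructor
  · rintro ⟨φ, hx, hs⟩
    simp only at hx hs
    rw [hx, unbits_bits, Option.elim_some, ← hx, hidt]
    obtain ⟨w, hw, hw1, hw2, hw3⟩ := hG2
      (φ, ((List.replicate k true, θR k), (List.replicate (g k) true, θX (g k))))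
      (gdw K φ k) (by simp only [List.length_replicate]) (tree_gdw K φ k) (gdw_nil.2 hs)
      (fun u hu hd => by
        simp only [List.length_replicate] at hu hd ⊢
        have h1 := hRA (bits (K.cj (φ, lexc (K.vs φ) u))) k
        refine ⟨h1.2, ?_⟩
        unfold qw
        simp only
        rw [← h1.1, mem_ws]
        exact left_iff hu hd)
    unfold dcw
    rw [List.any_eq_true]
    refine ⟨w, hw, ?_⟩
    rw [Bool.and_eq_true, decide_eq_true_eq]
    simp only [List.length_replicate]
    exact test_of_gdw hw1 hw3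
  · intro h
    rcases hx : unbits Φ x with _ | φ
    · rw [hx] at h
      simp at h
    · rw [hx, Option.elim_some, hidt] at h
      have h1 := dcw_sound h
      simp only [List.length_replicate] at h1
      rw [← bits_of_unbits hx]
      exact mem_ws.2 h1

/-- **The exclusion law.** -/
theorem ws_law (K : Cls Φ) : List.TFAE
    [InFPT (WS K),
      ∃ A : Set (List Bool × ℕ), FptReduces (WS K) A ∧ FptFeasible (ExcludeSorted A),
      ∃ A : Set (List Bool × ℕ), FptReduces (WS K) A ∧ FptFeasible (ExcludeCount A),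
      ∃ A : Set (List Bool × ℕ), FptReduces (WS K) A ∧ FptCountQuestions A] := by
  tfae_have 1 → 4 := fun h => ⟨Triv, reduces_triv h, questions_triv⟩
  tfae_have 4 → 3 := by
    rintro ⟨A, hA, h⟩
    exact ⟨A, hA, count_of_questions h⟩
  tfae_have 3 → 2 := by
    rintro ⟨A, hA, h⟩
    exact ⟨A, hA, h.mono sorted_of_count⟩
  tfae_have 2 → 1 := by
    rintro ⟨A, hA, h⟩
    exact ws_fpt hA h
  tfae_finish

end Pool.Agent.TH762.WT
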