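import Pool.Agent.TH762.WT.Gam

/-!
# The lower part of the weighted satisfiability hierarchy
-/

set_option autoImplicit false

namespace Pool.Agent.TH762.WT

open Pool.Agent.NPC Pool.Agent.H579R2.Spt Pool.Agent.H251R5.PQ Pool.Agent.TH684.EX
open Pool.Agent.TH762.FP
open Pool.Agent.TH762.RX (nub mem_nub nodup_nub nub_poly)

/-- the positive literals -/
def pos (φ : List (ℕ × Bool)) : List ℕ := nub ((φ.filter fun l => l.2).map fun l => l.1)

theorem mem_pos {φ : List (ℕ × Bool)} {v : ℕ} : v ∈ pos φ ↔ (v, true) ∈ φ := by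
  unfold pos
  rw [mem_nub, List.mem_map]
  constructor
  · rintro ⟨l, hl, rfl⟩
    obtain ⟨h1, h2⟩ := List.mem_filter.1 hl
    have : l = (l.1, true) := Prod.ext rfl h2
    rwa [← this]
  · intro h
    exact ⟨_, List.mem_filter.2 ⟨h, rfl⟩, rfl⟩

theorem pos_nodup (φ : List (ℕ × Bool)) : (pos φ).Nodup := nodup_nub _

/-- the decision procedure for conjunctions of literals -/
def d1 (φ : List (ℕ × Bool)) (k : ℕ) : Bool :=
  (φ.all fun l => φ.all fun l' => !decide (l.1 = l'.1) || decide (l.2 = l'.2)) &&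
    decide ((pos φ).length = k)

theorem d1_iff (φ : List (ℕ × Bool)) (k : ℕ) : (∃ S : Finset ℕ,
    (∀ v ∈ S, v ∈ vars 1 φ) ∧ S.card = k ∧ val (fun v => decide (v ∈ S)) 1 true φ = true) ↔
      d1 φ k = true := by
  have hvars : ∀ v, v ∈ vars 1 φ ↔ ∃ l ∈ φ, l.1 = v := by
    intro v
    show v ∈ List.flatMap (vars 0) φ ↔ _
    rw [List.mem_flatMap]
    refine exists_congr fun l => and_congr_right fun _ => ?_
    show v ∈ [l.1] ↔ _
    rw [List.mem_singleton, eq_comm]
  have hval : ∀ S : Finset ℕ, val (fun v => decide (v ∈ S)) 1 true φ = true ↔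
      ∀ l ∈ φ, decide (l.1 ∈ S) = l.2 := by
    intro S
    show List.all φ (val (fun v => decide (v ∈ S)) 0 false) = true ↔ _
    rw [List.all_eq_true]
    refine forall₂_congr fun l _ => ?_
    show decide (decide (l.1 ∈ S) = l.2) = true ↔ _
    rw [decide_eq_true_eq]
  unfold d1
  rw [Bool.and_eq_true, decide_eq_true_eq, List.all_eq_true]
  simp only [List.all_eq_true, Bool.or_eq_true, Bool.not_eq_true', decide_eq_false_iff_not,
    decide_eq_true_eq]
  constructor
  · rintro ⟨S, h1, h2, h3⟩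
    rw [hval] at h3
    constructor
    · intro l hl l' hl'
      by_cases h4 : l.1 = l'.1
      · right
        rw [← h3 l hl, ← h3 l' hl', h4]
      · exact Or.inl h4
    · rw [← h2, ← List.toFinset_card_of_nodup (pos_nodup φ)]
      congr 1
      ext v
      rw [List.mem_toFinset, mem_pos]
      constructor
      · intro h4
        exact of_decide_eq_true (h3 _ h4)
      · intro h4
        obtain ⟨l, hl, rfl⟩ := (hvars v).1 (h1 v h4)
        have h5 := h3 l hl
        rw [decide_eq_true h4] at h5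
        have : l = (l.1, true) := Prod.ext rfl h5.symm
        rwa [← this]
  · rintro ⟨h1, h2⟩
    refine ⟨(pos φ).toFinset, fun v hv => ?_, ?_, ?_⟩
    · rw [List.mem_toFinset, mem_pos] at hv
      exact (hvars v).2 ⟨_, hv, rfl⟩
    · rw [List.toFinset_card_of_nodup (pos_nodup φ)]
      exact h2
    · rw [hval]
      intro l hl
      have h3 : l.1 ∈ (pos φ).toFinset ↔ l.2 = true := by
        rw [List.mem_toFinset, mem_pos]
        constructor
        · intro h4
          rcases h1 _ hl _ h4 with h5 | h5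
          · exact absurd rfl h5
          · exact h5
        · intro h4
          have : l = (l.1, true) := Prod.ext rfl h4
          rwa [← this]
      by_cases h4 : l.2 = true
      · rw [h4]
        exact decide_eq_true (h3.2 h4)
      · rw [Bool.not_eq_true] at h4
        rw [h4]
        refine decide_eq_false fun h5 => ?_
        rw [h3.1 h5] at h4
        exact Bool.noConfusion h4

/-- the decision procedure for strings -/
def dz (z : List Bool × ℕ) : Bool :=
  (unbits (List (ℕ × Bool)) z.1).elim false fun φ => d1 φ z.2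

theorem d1_poly : Poly (fun q : List (ℕ × Bool) × ℕ => d1 q.1 q.2) := by
  have a1 : Poly (fun q : List (ℕ × Bool) × ℕ => q.1) := NPC.Poly.fst NPC.Poly.id
  have a2 : Poly (fun q : List (ℕ × Bool) × ℕ => q.2) := NPC.Poly.snd NPC.Poly.id
  have b1 : Poly (fun q : (List (ℕ × Bool) × ℕ) × (ℕ × Bool) => q.1) := NPC.Poly.fst NPC.Poly.id
  have b2 : Poly (fun q : (List (ℕ × Bool) × ℕ) × (ℕ × Bool) => q.2) := NPC.Poly.snd NPC.Poly.id
  refine NPC.Poly.and ?_ (NPC.Poly.decide_eq (NPC.Poly.length ((nub_poly (V := ℕ)).comp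
    (DU.mapf_poly (g := fun l : ℕ × Bool => l.1) (NPC.Poly.filter
      (l := fun q : List (ℕ × Bool) × ℕ => q.1) (p := fun _ (l : ℕ × Bool) => l.2) a1
      (NPC.Poly.snd b2)) (NPC.Poly.fst NPC.Poly.id)))) a2)
  refine NPC.Poly.all (l := fun q : List (ℕ × Bool) × ℕ => q.1) (p := fun q l =>
    q.1.all fun l' => !decide (l.1 = l'.1) || decide (l.2 = l'.2)) a1 ?_
  refine NPC.Poly.all (l := fun q : (List (ℕ × Bool) × ℕ) × (ℕ × Bool) => q.1.1)
    (p := fun q l' => !decide (q.2.1 = l'.1) || decide (q.2.2 = l'.2)) (a1.comp b1) ?_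
  have c1 : Poly (fun q : ((List (ℕ × Bool) × ℕ) × (ℕ × Bool)) × (ℕ × Bool) => q.1.2) :=
    NPC.Poly.snd (NPC.Poly.fst NPC.Poly.id)
  have c2 : Poly (fun q : ((List (ℕ × Bool) × ℕ) × (ℕ × Bool)) × (ℕ × Bool) => q.2) :=
    NPC.Poly.snd NPC.Poly.id
  exact NPC.Poly.or (NPC.Poly.not (NPC.Poly.decide_eq (NPC.Poly.fst c1) (NPC.Poly.fst c2)))
    (NPC.Poly.decide_eq (NPC.Poly.snd c1) (NPC.Poly.snd c2))

theorem dz_poly : Poly dz :=
  NPC.Poly.optElim (o := fun z : List Bool × ℕ => unbits (List (ℕ × Bool)) z.1)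
    (g := fun _ => false) (h := fun z φ => d1 φ z.2) (poly_unbits.comp
      (NPC.Poly.fst NPC.Poly.id)) (NPC.Poly.const _) (d1_poly.comp (NPC.Poly.pair
        (NPC.Poly.snd NPC.Poly.id) (NPC.Poly.snd (NPC.Poly.fst NPC.Poly.id))))

theorem dz_iff (z : List Bool × ℕ) : z ∈ PWSat 1 ↔ dz z = true := by
  unfold dz
  constructor
  · rintro ⟨φ, h1, h2⟩
    have h3 : unbits (List (ℕ × Bool)) z.1 = some φ := by
      rw [h1]
      exact unbits_bits (α := List (ℕ × Bool)) φ
    rw [h3]
    exact (d1_iff φ z.2).1 h2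
  · intro h
    cases hx : unbits (List (ℕ × Bool)) z.1 with
    | none => rw [hx] at h; simp at h
    | some φ =>
      rw [hx, Option.elim_some] at h
      exact ⟨φ, (bits_of_unbits hx).symm, (d1_iff φ z.2).2 h⟩

theorem fpt_of_reduces {Q : Set (List Bool × ℕ)} (h : FptReduces Q (PWSat 1)) : InFPT Q := by
  obtain ⟨θ, g, R, r, hθ, _, hR, hr, h⟩ := h
  refine ⟨θ, fun z => [dz (R z, r z)], hθ, polyTime_of_poly (dz_poly.comp
    (NPC.Poly.pair (PIso.poly_iff.2 hR) (poly_of_polyTime hr))), fun x k => ?_⟩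
  rw [(h x k).1, dz_iff]
  simp

theorem reduces_of_fpt {Q : Set (List Bool × ℕ)} (h : InFPT Q) : FptReduces Q (PWSat 1) := by
  obtain ⟨θ, V, hθ, hV, h⟩ := h
  refine ⟨θ, fun _ => 1, fun z => bits (if V z = [true] then [((0 : ℕ), true)] else []),
    fun _ => 1, hθ, Computable.const 1, ?_, polyTime_bits (NPC.Poly.const 1), fun x k =>
      ⟨?_, le_rfl⟩⟩
  · refine PIso.poly_iff.1 (bits_poly.comp (NPC.Poly.ite (NPC.Poly.decide_eq
      (PIso.poly_iff.2 hV) (NPC.Poly.const _)) (NPC.Poly.const _) (NPC.Poly.const _)))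
  · rw [h x k, dz_iff]
    unfold dz
    simp only
    rw [unbits_bits, Option.elim_some]
    by_cases hv : V (pairBits x (θ k)) = [true]
    · rw [if_pos hv]
      exact iff_of_true hv (by decide)
    · rw [if_neg hv]
      exact iff_of_false hv (by decide)

/-- **The law.** -/
theorem pwsat_law (t : ℕ) : List.TFAE
    [FptReduces (PWSat (t + 2)) (PWSat 1),
      InFPT (PWSat (t + 2)),
      ∃ A : Set (List Bool × ℕ), FptReduces (PWSat (t + 2)) A ∧ FptFeasible (ExcludeSorted A),
      ∃ A : Set (List Bool × ℕ), FptReduces (PWSat (t + 2)) A ∧ FptFeasible (ExcludeCount A),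
      ∃ A : Set (List Bool × ℕ), FptReduces (PWSat (t + 2)) A ∧ FptCountQuestions A] := by
  have h := ws_law (gcls t)
  rw [ws_gcls] at h
  tfae_have 1 → 2 := fpt_of_reduces
  tfae_have 2 → 1 := reduces_of_fpt
  tfae_have 2 ↔ 3 := h.out 0 1
  tfae_have 2 ↔ 4 := h.out 0 2
  tfae_have 2 ↔ 5 := h.out 0 3
  tfae_finish

end Pool.Agent.TH762.WT
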